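import Pool.Agent.Helper6.TRI.Defs

/-!
# TRI, block B2: valuations of a function field of one variable are discrete, with finite residue field
-/

set_option autoImplicit false

namespace Pool.Agent.TRI

open Module Pool.Agent.SQ Polynomial

section

variable {k E : Type*} [Field k] [Field E] [Algebra k E]

private theorem om_one64 {ω : E → ℝ} (h : RV k ω) : ω 1 = 0 := by
  have := h.alg 1 one_ne_zero
  rwa [map_one] at this

private theorem om_neg64 {ω : E → ℝ} (h : RV k ω) (x : E) (hx : x ≠ 0) : ω (-x) = ω x := by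
  have := h.smul (-1) x (by simp) hx
  simpa using this

private theorem om_inv64 {ω : E → ℝ} (h : RV k ω) (x : E) (hx : x ≠ 0) : ω x⁻¹ = -ω x := by
  have := h.mul x x⁻¹ hx (inv_ne_zero hx)
  rw [mul_inv_cancel₀ hx, om_one64 h] at this
  linarith

private theorem om_pow64 {ω : E → ℝ} (h : RV k ω) (x : E) (hx : x ≠ 0) (n : ℕ) : ω (x ^ n) = n * ω x := by
  induction n with
  | zero => simp [om_one64 h]
  | succ n ih => rw [pow_succ, h.mul _ _ (pow_ne_zero _ hx) hx, ih]; push_cast; ring

private theorem sum_gt64 {ω : E → ℝ} (h : RV k ω) {ι : Type*} (s : Finset ι) (z : ι → E) (c : ℝ)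
    (hz : ∀ i ∈ s, z i = 0 ∨ c < ω (z i)) : ∑ i ∈ s, z i = 0 ∨ c < ω (∑ i ∈ s, z i) := by
  classical
  induction s using Finset.induction_on with
  | empty => left; simp
  | insert a s ha ih =>
    rw [Finset.sum_insert ha]
    have h1 := hz a (Finset.mem_insert_self _ _)
    have h2 := ih fun i hi => hz i (Finset.mem_insert_of_mem hi)
    by_cases e : z a + ∑ i ∈ s, z i = 0
    · exact Or.inl e
    right
    by_cases a0 : z a = 0
    · rw [a0, zero_add] at e ⊢
      exact h2.resolve_left e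
    by_cases b0 : ∑ i ∈ s, z i = 0
    · rw [b0, add_zero] at e ⊢
      exact h1.resolve_left e
    exact (lt_min (h1.resolve_left a0) (h2.resolve_left b0)).trans_le (h.add _ _ a0 b0 e)

private theorem dom64 {ω : E → ℝ} (h : RV k ω) (a b : E) (ha : a ≠ 0) (hb : b = 0 ∨ ω a < ω b) :
    a + b ≠ 0 ∧ ω (a + b) = ω a := by
  by_cases b0 : b = 0
  · subst b0; simpa using ha
  have hb' := hb.resolve_left b0
  have h1 : a + b ≠ 0 := by
    intro e
    have : b = -a := by linear_combination e
    rw [this, om_neg64 h a ha] at hb'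
    exact lt_irrefl _ hb'
  refine ⟨h1, le_antisymm ?_ ?_⟩
  · by_contra hlt
    push Not at hlt
    have h2 := h.add (a + b) (-b) h1 (neg_ne_zero.2 b0) (by simpa using ha)
    rw [add_neg_cancel_right, om_neg64 h b b0] at h2
    rcases min_le_iff.1 h2 with h3 | h3 <;> linarith
  · have h2 := h.add a b ha b0 h1
    rw [min_eq_left hb'.le] at h2
    exact h2

private theorem aeval_nonneg64 {ω : E → ℝ} (h : RV k ω) {y : E} (hy : y ≠ 0) (hpos : 0 < ω y) (Q : k[X]) :
    aeval y Q = 0 ∨ 0 ≤ ω (aeval y Q) := by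
  have : aeval y Q ∈ lev h 0 := by
    rw [aeval_eq_sum_range]
    refine Submodule.sum_mem _ fun i _ => Submodule.smul_mem _ _ (Or.inr ?_)
    rw [om_pow64 h y hy]
    positivity
  exact this

private theorem poly64 {ω : E → ℝ} (h : RV k ω) {y : E} (hy : y ≠ 0) (hpos : 0 < ω y) {b : ℕ} {u : Fin b → E}
    (hu : RI k ω u) (P : Fin b → k[X]) (hP : P ≠ 0) :
    ∑ j, aeval y (P j) * u j ≠ 0 ∧ ∃ m : ℕ, ω (∑ j, aeval y (P j) * u j) = m * ω y := by
  classical
  have hex : ∃ m : ℕ, ∃ j, (P j).coeff m ≠ 0 := by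
    by_contra hcon
    push Not at hcon
    exact hP (funext fun j => Polynomial.ext fun m => by simpa using hcon m j)
  set m := Nat.find hex with hm
  obtain ⟨j0, hj0⟩ := Nat.find_spec hex
  have hlow : ∀ d < m, ∀ j, (P j).coeff d = 0 := by
    intro d hd j
    have := Nat.find_min hex hd
    push Not at this
    exact this j
  have hdvd : ∀ j, ∃ R : k[X], P j = X ^ m * R := fun j => X_pow_dvd_iff.2 fun d hd => hlow d hd j
  choose R hR using hdvd
  have hc : (fun j => (R j).coeff 0) ≠ 0 := by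
    intro e
    apply hj0
    have := congrFun e j0
    simp only [Pi.zero_apply] at this
    rw [hR j0, ← hm, coeff_X_pow_mul']
    simpa using this
  obtain ⟨h1, h2⟩ := hu _ hc
  have hsplit : ∑ j, aeval y (R j) * u j = ∑ j, (R j).coeff 0 • u j + ∑ j, y * aeval y (divX (R j)) * u j := by
    rw [← Finset.sum_add_distrib]
    refine Finset.sum_congr rfl fun j _ => ?_
    conv_lhs => rw [← divX_mul_X_add (R j)]
    rw [map_add, map_mul, aeval_X, aeval_C, Algebra.smul_def]
    ring
  have hu0 : ∀ j, u j ≠ 0 ∧ ω (u j) = 0 := by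
    intro j
    have := hu (Pi.single j 1) (by simp)
    simpa [Pi.single_apply, Finset.sum_ite_eq', ite_smul] using this
  have hrest : ∑ j, y * aeval y (divX (R j)) * u j = 0 ∨
      ω (∑ j, (R j).coeff 0 • u j) < ω (∑ j, y * aeval y (divX (R j)) * u j) := by
    rw [h2]
    refine sum_gt64 h _ _ 0 fun j _ => ?_
    by_cases e : aeval y (divX (R j)) = 0
    · left; rw [e]; simp
    right
    rw [h.mul _ _ (mul_ne_zero hy e) (hu0 j).1, h.mul _ _ hy e, (hu0 j).2]
    have := (aeval_nonneg64 h hy hpos (divX (R j))).resolve_left e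
    linarith
  obtain ⟨h3, h4⟩ := dom64 h _ _ h1 hrest
  rw [← hsplit] at h3 h4
  have hfac : ∑ j, aeval y (P j) * u j = y ^ m * ∑ j, aeval y (R j) * u j := by
    rw [Finset.mul_sum]
    refine Finset.sum_congr rfl fun j _ => ?_
    rw [hR j, map_mul, map_pow, aeval_X]
    ring
  rw [hfac]
  refine ⟨mul_ne_zero (pow_ne_zero _ hy) h3, m, ?_⟩
  rw [h.mul _ _ (pow_ne_zero _ hy) h3, om_pow64 h y hy, h4, h2, add_zero]

private theorem den64 {y : E} {ι : Type*} [Fintype ι] (g : ι → IntermediateField.adjoin k {y}) :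
    ∃ (d : k[X]) (P : ι → k[X]), aeval y d ≠ 0 ∧ ∀ i, (g i : E) * aeval y d = aeval y (P i) := by
  classical
  have h1 : ∀ i, ∃ r s : k[X], aeval y s ≠ 0 ∧ (g i : E) * aeval y s = aeval y r := by
    intro i
    obtain ⟨r, s, hrs⟩ := IntermediateField.mem_adjoin_simple_iff k (g i : E) |>.1 (g i).2
    by_cases hs : aeval y s = 0
    · refine ⟨0, 1, by simp, ?_⟩
      rw [hs, div_zero] at hrs
      rw [hrs]; simp
    · exact ⟨r, s, hs, by rw [hrs]; field_simp⟩
  choose r s hs hrs using h1
  refine ⟨∏ i, s i, fun i => r i * ∏ j ∈ Finset.univ.erase i, s j, ?_, fun i => ?_⟩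
  · rw [map_prod]
    exact Finset.prod_ne_zero_iff.2 fun i _ => hs i
  · rw [map_mul, ← hrs i, ← Finset.mul_prod_erase _ _ (Finset.mem_univ i), map_mul]
    ring

private theorem fund64 {ω : E → ℝ} (h : RV k ω) {y : E} (hy : y ≠ 0) (hpos : 0 < ω y) {a b : ℕ} {x : Fin a → E}
    (hx : ∀ i, x i ≠ 0) (hd : ∀ i i', i ≠ i' → ∀ n : ℤ, ω (x i) - ω (x i') ≠ n * ω y) {u : Fin b → E}
    (hu : RI k ω u) :
    LinearIndependent (IntermediateField.adjoin k {y}) (fun p : Fin a × Fin b => x p.1 * u p.2) := by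
  classical
  rw [Fintype.linearIndependent_iff]
  intro g hg
  obtain ⟨d, P, hd0, hP⟩ := den64 g
  by_contra hne
  push Not at hne
  obtain ⟨p0, hp0⟩ := hne
  set S : Fin a → E := fun i => ∑ j, aeval y (P (i, j)) * u j with hS
  have hsum : ∑ i, x i * S i = 0 := by
    have e1 : ∑ p : Fin a × Fin b, aeval y (P p) * (x p.1 * u p.2) = 0 := by
      have : ∑ p : Fin a × Fin b, aeval y (P p) * (x p.1 * u p.2) =
          aeval y d * ∑ p : Fin a × Fin b, g p • (x p.1 * u p.2) := by
        rw [Finset.mul_sum]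
        refine Finset.sum_congr rfl fun p _ => ?_
        rw [← hP p, IntermediateField.smul_def, smul_eq_mul]
        ring
      rw [this, hg, mul_zero]
    rw [Fintype.sum_prod_type] at e1
    rw [← e1]
    refine Finset.sum_congr rfl fun i _ => ?_
    rw [hS, Finset.mul_sum]
    refine Finset.sum_congr rfl fun j _ => ?_
    ring
  set s : Finset (Fin a) := Finset.univ.filter fun i => (fun j => P (i, j)) ≠ 0 with hs
  have hmem : p0.1 ∈ s := by
    rw [hs, Finset.mem_filter]
    refine ⟨Finset.mem_univ _, fun e => hp0 ?_⟩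
    have e1 : P p0 = 0 := congrFun e p0.2
    have e2 := hP p0
    rw [e1, map_zero] at e2
    have e3 := (mul_eq_zero.1 e2).resolve_right hd0
    exact Subtype.ext (by simpa using e3)
  have hval : ∀ i ∈ s, S i ≠ 0 ∧ ∃ m : ℕ, ω (S i) = m * ω y := fun i hi =>
    poly64 h hy hpos hu _ (Finset.mem_filter.1 hi).2
  have hzero : ∀ i, i ∉ s → S i = 0 := by
    intro i hi
    have : (fun j => P (i, j)) = 0 := by
      by_contra e
      exact hi (Finset.mem_filter.2 ⟨Finset.mem_univ _, e⟩)
    rw [hS]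
    refine Finset.sum_eq_zero fun j _ => ?_
    have e : P (i, j) = 0 := congrFun this j
    rw [e]; simp
  obtain ⟨i0, hi0, hmin⟩ := Finset.exists_min_image s (fun i => ω (x i * S i)) ⟨_, hmem⟩
  have hrest : ∑ i ∈ Finset.univ.erase i0, x i * S i = 0 ∨ ω (x i0 * S i0) < ω (∑ i ∈ Finset.univ.erase i0, x i * S i) := by
    refine sum_gt64 h _ _ _ fun i hi => ?_
    by_cases his : i ∈ s
    · right
      refine lt_of_le_of_ne (hmin i his) fun e => ?_
      obtain ⟨h1, m1, hm1⟩ := hval i his
      obtain ⟨h2, m2, hm2⟩ := hval i0 hi0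
      rw [h.mul _ _ (hx i) h1, h.mul _ _ (hx i0) h2, hm1, hm2] at e
      refine hd i i0 (Finset.ne_of_mem_erase hi) ((m2 : ℤ) - m1) ?_
      push_cast
      linarith
    · left; rw [hzero i his, mul_zero]
  have := (dom64 h _ _ (mul_ne_zero (hx i0) (hval i0 hi0).1) hrest).1
  rw [Finset.add_sum_erase Finset.univ (fun i => x i * S i) (Finset.mem_univ i0)] at this
  exact this hsum

private theorem findim64 {V : Submodule k E} [FiniteDimensional k V] (hC : Crv V) {y : E} (hy : Transcendental k y) :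
    FiniteDimensional (IntermediateField.adjoin k {y}) E := by
  classical
  set L := IntermediateField.adjoin k {y} with hL
  let b := Module.finBasis k V
  set S : Set E := Set.range fun i => (b i : E) with hS
  have : Finite S := Set.finite_range _
  have h1 : FiniteDimensional L (IntermediateField.adjoin L S) :=
    IntermediateField.finiteDimensional_adjoin fun x _ => (hC.alg y x hy).isIntegral
  have h2 : IntermediateField.adjoin L S = ⊤ := by
    rw [eq_top_iff]
    have h3 : (⊤ : IntermediateField k E) ≤ (IntermediateField.adjoin L S).restrictScalars k := by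
      rw [← hC.gen, IntermediateField.adjoin_le_iff]
      intro v hv
      have h4 : v ∈ Submodule.span k S := by
        have h5 : (⟨v, hv⟩ : V) ∈ Submodule.span k (Set.range b) := by rw [b.span_eq]; trivial
        have h6 := Submodule.mem_map_of_mem (f := V.subtype) h5
        rw [Submodule.map_span, ← Set.range_comp] at h6
        exact h6
      have h7 : Submodule.span k S ≤ Subalgebra.toSubmodule ((IntermediateField.adjoin L S).restrictScalars k).toSubalgebra := by
        rw [Submodule.span_le]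
        intro x hx
        exact IntermediateField.subset_adjoin L S hx
      exact h7 h4
    intro x _
    exact h3 (IntermediateField.mem_top (x := x))
  rw [h2] at h1
  exact (IntermediateField.topEquiv (F := L) (E := E)).toLinearEquiv.finiteDimensional

theorem dval {V : Submodule k E} [FiniteDimensional k V] (hC : Crv V) {ω : E → ℝ} (hω : RV k ω) (hnt : ¬ Triv ω) :
    ∃ (γ : ℝ) (f : ℕ), DVal k ω γ f := by
  classical
  have hu1 : RI k ω (fun _ : Fin 1 => (1 : E)) := by
    intro c hc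
    have hc0 : c 0 ≠ 0 := fun e => hc (funext fun i => by rw [Subsingleton.elim i 0]; exact e)
    rw [Fin.sum_univ_one, Algebra.smul_def, mul_one]
    exact ⟨by simpa using hc0, hω.alg _ hc0⟩
  obtain ⟨y, hy, hpos⟩ : ∃ y : E, y ≠ 0 ∧ 0 < ω y := by
    unfold Triv at hnt
    push Not at hnt
    obtain ⟨x, hx, hx0⟩ := hnt
    rcases lt_or_gt_of_ne hx0 with h | h
    · exact ⟨x⁻¹, inv_ne_zero hx, by rw [om_inv64 hω x hx]; linarith⟩
    · exact ⟨x, hx, h⟩
  have htr : Transcendental k y := by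
    rw [transcendental_iff]
    intro P hP
    by_contra hP0
    have := (poly64 hω hy hpos hu1 (fun _ => P) (fun e => hP0 (congrFun e 0))).1
    rw [Fin.sum_univ_one, hP, zero_mul] at this
    exact this rfl
  have hfd := findim64 hC htr
  set n := finrank (IntermediateField.adjoin k {y}) E with hn
  have hbound : ∀ {a b : ℕ} {x : Fin a → E} (_ : ∀ i, x i ≠ 0)
      (_ : ∀ i i', i ≠ i' → ∀ n : ℤ, ω (x i) - ω (x i') ≠ n * ω y) {u : Fin b → E} (_ : RI k ω u), a * b ≤ n := by
    intro a b x hx hd u hu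
    have := (fund64 hω hy hpos hx hd hu).fintype_card_le_finrank
    simpa using this
  have hres : ∀ (f' : ℕ) (u : Fin f' → E), RI k ω u → f' ≤ n := by
    intro f' u hu
    have := hbound (a := 1) (x := fun _ => 1) (fun _ => one_ne_zero)
      (fun i i' h => absurd (Subsingleton.elim i i') h) hu
    simpa using this
  have hval : ∀ x : E, x ≠ 0 → ∃ j : ℕ, 0 < j ∧ j ≤ n ∧ ∃ m : ℤ, j * ω x = m * ω y := by
    intro x hx
    by_contra hcon
    push Not at hcon
    have hlt : ∀ i i' : Fin (n + 1), i < i' → ∀ m : ℤ, ω (x ^ (i' : ℕ)) - ω (x ^ (i : ℕ)) ≠ m * ω y := by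
      intro i i' hii m e
      have hlt' : (i : ℕ) < i' := hii
      refine hcon ((i' : ℕ) - i) (by omega) (by omega) m ?_
      rw [om_pow64 hω x hx, om_pow64 hω x hx] at e
      rw [Nat.cast_sub hlt'.le]
      linarith
    have := hbound (a := n + 1) (x := fun i : Fin (n + 1) => x ^ (i : ℕ)) (fun i => pow_ne_zero _ hx)
      (fun i i' h m e => by
        rcases lt_or_gt_of_ne h with h' | h'
        · exact hlt i i' h' (-m) (by push_cast; linarith)
        · exact hlt i' i h' m e) hu1
    omega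
  set c : ℝ := ω y / (n.factorial : ℝ) with hc
  have hfac : (0 : ℝ) < n.factorial := by exact_mod_cast n.factorial_pos
  have hcpos : 0 < c := div_pos hpos hfac
  have hmult : ∀ x : E, x ≠ 0 → ∃ m : ℤ, ω x = m * c := by
    intro x hx
    obtain ⟨j, hj0, hjn, m, hm⟩ := hval x hx
    obtain ⟨q, hq⟩ := Nat.dvd_factorial hj0 hjn
    refine ⟨q * m, ?_⟩
    have hj : (j : ℝ) ≠ 0 := by exact_mod_cast hj0.ne'
    have hq' : (n.factorial : ℝ) = j * q := by exact_mod_cast hq
    rw [hc, eq_comm, mul_div_assoc', div_eq_iff hfac.ne', hq']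
    push_cast
    linear_combination (-(q : ℝ)) * hm
  let Γ : AddSubgroup ℝ :=
    { carrier := {t | ∃ x : E, x ≠ 0 ∧ ω x = t}
      zero_mem' := ⟨1, one_ne_zero, om_one64 hω⟩
      add_mem' := by
        rintro s t ⟨x, hx, rfl⟩ ⟨z, hz, rfl⟩
        exact ⟨x * z, mul_ne_zero hx hz, hω.mul _ _ hx hz⟩
      neg_mem' := by
        rintro s ⟨x, hx, rfl⟩
        exact ⟨x⁻¹, inv_ne_zero hx, om_inv64 hω x hx⟩ }
  have hdisj : Disjoint (Γ : Set ℝ) (Set.Ioo 0 c) := by
    rw [Set.disjoint_left]
    rintro t ⟨x, hx, rfl⟩ ⟨h1, h2⟩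
    obtain ⟨m, hm⟩ := hmult x hx
    rw [hm] at h1 h2
    have h3 : (0 : ℝ) < m := by
      by_contra hh
      push Not at hh
      nlinarith
    have h4 : (m : ℝ) < 1 := by
      by_contra hh
      push Not at hh
      nlinarith
    have h5 : 0 < m := by exact_mod_cast h3
    have h6 : m < 1 := by exact_mod_cast h4
    omega
  obtain ⟨g, hg⟩ := AddSubgroup.cyclic_of_isolated_zero hcpos hdisj
  have hmemg : ∀ t, t ∈ Γ ↔ ∃ m : ℤ, m • g = t := fun t => by
    rw [hg, AddSubgroup.mem_closure_singleton]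
  have hg0 : g ≠ 0 := by
    rintro rfl
    obtain ⟨m, hm⟩ := (hmemg (ω y)).1 ⟨y, hy, rfl⟩
    rw [smul_zero] at hm
    exact hpos.ne hm
  have habs : |g| ∈ Γ := by
    rcases abs_choice g with h | h
    · rw [h]; exact (hmemg g).2 ⟨1, one_smul _ _⟩
    · rw [h]; exact (hmemg (-g)).2 ⟨-1, by simp⟩
  set f := Nat.findGreatest (fun f' => ∃ u : Fin f' → E, RI k ω u) n with hf
  have h1n : 1 ≤ n := hres 1 _ hu1
  refine ⟨|g|, f, hω, abs_pos.2 hg0, ?_, fun x hx => ?_, ?_, ?_, fun f' u hu => ?_⟩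
  · exact Nat.lt_of_lt_of_le Nat.zero_lt_one (Nat.le_findGreatest h1n ⟨_, hu1⟩)
  · obtain ⟨m, hm⟩ := (hmemg (ω x)).1 ⟨x, hx, rfl⟩
    rcases abs_choice g with h | h
    · exact ⟨m, by rw [h, ← hm, zsmul_eq_mul]⟩
    · exact ⟨-m, by rw [h, ← hm, zsmul_eq_mul]; push_cast; ring⟩
  · obtain ⟨x, hx, e⟩ := habs
    exact ⟨x, hx, e⟩
  · exact Nat.findGreatest_spec (P := fun f' => ∃ u : Fin f' → E, RI k ω u) h1n ⟨_, hu1⟩
  · exact Nat.le_findGreatest (hres f' u hu) ⟨u, hu⟩

end

end Pool.Agent.TRI
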