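import Pool.Agent.Helper20.DER.Geo
import Pool.Agent.Helper64.GS.Dim

/-!
# TRI, S1: forms over an extension field

`exists_form64`: a point of the surface of small rank over `L` satisfies an equation over `L`. `exists_funct64`, `funct_zero64`: linear
functionals detect the ideal over extension fields.
-/

set_option autoImplicit false

namespace Pool.Agent.TRI

open MvPolynomial Pool.Agent.Helper20.DER

universe u

section

variable {k₀ L : Type u} [Field k₀] [Field L] [Algebra k₀ L]

/-- decomposition in linearly independent scalars -/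
theorem decomp64 {σ : Type*} (P : MvPolynomial σ L) : ∃ (n : ℕ) (v : Fin n → L) (Q : Fin n → MvPolynomial σ k₀),
    LinearIndependent k₀ v ∧ P = ∑ j, C (v j) * MvPolynomial.map (algebraMap k₀ L) (Q j) := by
  classical
  set V : Submodule k₀ L := Submodule.span k₀ (Set.range fun m => coeff m P) with hV
  have hfin : (Set.range fun m => coeff m P).Finite := by
    refine ((P.support.finite_toSet.image fun m => coeff m P).union (Set.finite_singleton 0)).subset ?_
    rintro _ ⟨m, rfl⟩
    by_cases hm : m ∈ P.support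
    · exact Or.inl ⟨m, hm, rfl⟩
    · right
      rw [Set.mem_singleton_iff]
      exact notMem_support_iff.1 hm
  have hfd : FiniteDimensional k₀ V := FiniteDimensional.span_of_finite k₀ hfin
  have hmem : ∀ m, coeff m P ∈ V := fun m => Submodule.subset_span ⟨m, rfl⟩
  let b := Module.finBasis k₀ V
  refine ⟨Module.finrank k₀ V, fun j => (b j : L), fun j => ∑ m ∈ P.support, monomial m (b.repr ⟨coeff m P, hmem m⟩ j),
    b.linearIndependent.map' V.subtype (Submodule.ker_subtype V), ?_⟩
  have h1 : ∀ m, coeff m P = ∑ j, (b j : L) * algebraMap k₀ L (b.repr ⟨coeff m P, hmem m⟩ j) := by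
    intro m
    have h2 := congrArg (fun z : V => (z : L)) (b.sum_repr ⟨coeff m P, hmem m⟩)
    simp only [Submodule.coe_sum, Submodule.coe_smul] at h2
    refine h2.symm.trans ?_
    refine Finset.sum_congr rfl fun j _ => ?_
    rw [Algebra.smul_def, mul_comm]
  conv_lhs => rw [P.as_sum]
  simp_rw [map_sum, map_monomial, Finset.mul_sum, C_mul_monomial]
  rw [Finset.sum_comm]
  refine Finset.sum_congr rfl fun m _ => ?_
  rw [← map_sum, ← h1]

variable {N : ℕ} {I : Ideal (MvPolynomial (Fin (N + 1)) k₀)}

theorem hom_map64 (h : ∀ p ∈ I, ∀ m, homogeneousComponent m p ∈ I) :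
    ∀ p ∈ I.map (MvPolynomial.map (algebraMap k₀ L)), ∀ m,
      homogeneousComponent m p ∈ I.map (MvPolynomial.map (algebraMap k₀ L)) := by
  classical
  have key : ∀ w ∈ I.map (MvPolynomial.map (algebraMap k₀ L)), ∀ a m,
      homogeneousComponent m (a * w) ∈ I.map (MvPolynomial.map (algebraMap k₀ L)) := by
    intro w hw
    refine Submodule.span_induction ?_ ?_ ?_ ?_ hw
    · rintro _ ⟨g, hg, rfl⟩ a m
      have h1 : a * MvPolynomial.map (algebraMap k₀ L) g = ∑ i ∈ Finset.range (a.totalDegree + 1),
          ∑ j ∈ Finset.range (g.totalDegree + 1), homogeneousComponent i a *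
            MvPolynomial.map (algebraMap k₀ L) (homogeneousComponent j g) := by
        conv_lhs => rw [← sum_homogeneousComponent a, ← sum_homogeneousComponent g]
        rw [map_sum, Finset.sum_mul_sum]
      rw [h1, map_sum]
      refine Ideal.sum_mem _ fun i _ => ?_
      rw [map_sum]
      refine Ideal.sum_mem _ fun j _ => ?_
      have h2 : homogeneousComponent i a * MvPolynomial.map (algebraMap k₀ L) (homogeneousComponent j g) ∈
          homogeneousSubmodule (Fin (N + 1)) L (i + j) :=
        (homogeneousComponent_isHomogeneous i a).mul ((homogeneousComponent_isHomogeneous j g).map _)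
      rw [homogeneousComponent_of_mem h2]
      split_ifs
      · exact Ideal.mul_mem_left _ _ (Ideal.mem_map_of_mem _ (h g hg j))
      · exact Ideal.zero_mem _
    · intro a m
      rw [mul_zero, map_zero]
      exact Ideal.zero_mem _
    · intro x y _ _ hx hy a m
      rw [mul_add, map_add]
      exact Ideal.add_mem _ (hx a m) (hy a m)
    · intro b x _ hx a m
      rw [smul_eq_mul, ← mul_assoc]
      exact hx _ m
  intro p hp m
  have := key p hp 1 m
  rwa [one_mul] at this

/-- The ring of the surface over an extension field has transcendence degree three. -/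
theorem trdeg_map64 (hX : Surf I) :
    Algebra.trdeg L (MvPolynomial (Fin (N + 1)) L ⧸ I.map (MvPolynomial.map (algebraMap k₀ L))) = 3 := by
  classical
  refine le_antisymm (trdeg_map_le hX L) ?_
  have := hX.prime
  have := hX.geo L
  obtain ⟨ι, b, hb⟩ := exists_isTranscendenceBasis' (R := k₀) (A := MvPolynomial (Fin (N + 1)) k₀ ⧸ I)
  have hι : Cardinal.mk ι = 3 := by
    rw [hb.cardinalMk_eq_trdeg, hX.tr]
  choose B hB using fun i => Ideal.Quotient.mk_surjective (b i)
  set IL := I.map (MvPolynomial.map (algebraMap k₀ L)) with hIL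
  have hind : AlgebraicIndependent L fun i => Ideal.Quotient.mk IL (MvPolynomial.map (algebraMap k₀ L) (B i)) := by
    rw [algebraicIndependent_iff]
    intro P hP
    obtain ⟨n, v, Q, hv, hPQ⟩ := decomp64 (k₀ := k₀) P
    have h1 : aeval (fun i => Ideal.Quotient.mk IL (MvPolynomial.map (algebraMap k₀ L) (B i))) P =
        Ideal.Quotient.mk IL (aeval (fun i => MvPolynomial.map (algebraMap k₀ L) (B i)) P) := by
      exact (comp_aeval_apply (f := fun i => MvPolynomial.map (algebraMap k₀ L) (B i)) (Ideal.Quotient.mkₐ L IL) P).symm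
    have h3 : ∀ Q : MvPolynomial ι k₀, aeval (fun i => MvPolynomial.map (algebraMap k₀ L) (B i))
        (MvPolynomial.map (algebraMap k₀ L) Q) = MvPolynomial.map (algebraMap k₀ L) (aeval B Q) := by
      intro Q
      rw [aeval_map_algebraMap]
      exact (comp_aeval_apply (f := B) (MvPolynomial.mapAlgHom (Algebra.ofId k₀ L)) Q).symm
    rw [h1, Ideal.Quotient.eq_zero_iff_mem, hPQ, map_sum] at hP
    have h4 : ∑ j, aeval (fun i => MvPolynomial.map (algebraMap k₀ L) (B i)) (C (v j) * MvPolynomial.map (algebraMap k₀ L) (Q j)) =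
        ∑ j, C (v j) * MvPolynomial.map (algebraMap k₀ L) (aeval B (Q j)) := by
      refine Finset.sum_congr rfl fun j _ => ?_
      rw [map_mul, h3, aeval_C]
      rfl
    rw [h4] at hP
    have h5 : ∀ j, Q j = 0 := by
      intro j
      have h6 := coord_mem v hv _ hP j
      have h7 : aeval b (Q j) = 0 := by
        have h8 : aeval b (Q j) = Ideal.Quotient.mk I (aeval B (Q j)) := by
          have h9 := (comp_aeval_apply (f := B) (Ideal.Quotient.mkₐ k₀ I) (Q j)).symm
          rw [← show (fun i => Ideal.Quotient.mkₐ k₀ I (B i)) = b from funext hB]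
          exact h9
        rw [h8, Ideal.Quotient.eq_zero_iff_mem]
        exact h6
      exact (algebraicIndependent_iff.1 hb.1) _ h7
    rw [hPQ]
    refine Finset.sum_eq_zero fun j _ => ?_
    rw [h5, map_zero, mul_zero]
  rw [← hι]
  exact hind.cardinalMk_le_trdeg

/-- A point of rank less than two over `L` satisfies an equation over `L` which does not hold on the surface. -/
theorem exists_form64 {E : Type u} [Field E] [Algebra L E] [Algebra k₀ E] [IsScalarTower k₀ L E] (hX : Surf I)
    (z : Fin (N + 1) → E) (hz : OnX I z) (hr : ¬ ((2 : ℕ) : ℕ∞) ≤ GS.rk L (GS.Rat z)) :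
    ∃ (e : ℕ) (G : MvPolynomial (Fin (N + 1)) L), G.IsHomogeneous e ∧
      G ∉ I.map (MvPolynomial.map (algebraMap k₀ L)) ∧ aeval z G = 0 := by
  have := hX.geo L
  by_contra hcon
  push Not at hcon
  apply hr
  refine GS.generic_point_hom (I.map (MvPolynomial.map (algebraMap k₀ L))) (hom_map64 hX.hom) ?_ z ?_ ?_
  · rw [trdeg_map64 hX]
    norm_num
  · rintro f ⟨hf, -⟩
    have h1 : I.map (MvPolynomial.map (algebraMap k₀ L)) ≤ RingHom.ker (aeval z : MvPolynomial (Fin (N + 1)) L →ₐ[L] E) := by
      rw [Ideal.map_le_iff_le_comap]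
      intro F hF
      rw [Ideal.mem_comap, RingHom.mem_ker, aeval_map_algebraMap]
      exact hz F hF
    exact RingHom.mem_ker.1 (h1 hf)
  · rintro f ⟨d, hd⟩ hf
    exact hcon d f hd hf

end

section funct

variable {k₀ : Type u} [Field k₀] {σ : Type*}

/-- the extension of a linear functional -/
noncomputable def ext64 (K : Type u) [Field K] [Algebra k₀ K] (lam : MvPolynomial σ k₀ →ₗ[k₀] k₀) :
    MvPolynomial σ K →ₗ[K] K :=
  (basisMonomials σ K).constr K fun m => algebraMap k₀ K (lam (monomial m 1))

theorem ext_monomial64 (K : Type u) [Field K] [Algebra k₀ K] (lam : MvPolynomial σ k₀ →ₗ[k₀] k₀) (m : σ →₀ ℕ) (c : K) :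
    ext64 K lam (monomial m c) = c * algebraMap k₀ K (lam (monomial m 1)) := by
  have h1 : (monomial m c : MvPolynomial σ K) = c • basisMonomials σ K m := by
    rw [coe_basisMonomials, smul_monomial, smul_eq_mul, mul_one]
  rw [h1, map_smul, smul_eq_mul]
  unfold ext64
  rw [Module.Basis.constr_basis]

theorem ext_sum64 (K : Type u) [Field K] [Algebra k₀ K] (lam : MvPolynomial σ k₀ →ₗ[k₀] k₀) (w : MvPolynomial σ K)
    (s : Finset (σ →₀ ℕ)) (hs : w.support ⊆ s) :
    ext64 K lam w = ∑ m ∈ s, coeff m w * algebraMap k₀ K (lam (monomial m 1)) := by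
  classical
  conv_lhs => rw [w.as_sum]
  rw [map_sum]
  rw [Finset.sum_subset hs fun m _ hm => by rw [notMem_support_iff.1 hm, monomial_zero, map_zero]]
  exact Finset.sum_congr rfl fun m _ => ext_monomial64 K lam m _

theorem ext_map64 (K : Type u) [Field K] [Algebra k₀ K] (lam : MvPolynomial σ k₀ →ₗ[k₀] k₀) (c : K) (g : MvPolynomial σ k₀) :
    ext64 K lam (C c * MvPolynomial.map (algebraMap k₀ K) g) = c * algebraMap k₀ K (lam g) := by
  classical
  conv_rhs => rw [g.as_sum]
  conv_lhs => rw [g.as_sum]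
  simp_rw [map_sum, Finset.mul_sum, map_monomial, C_mul_monomial]
  rw [map_sum]
  refine Finset.sum_congr rfl fun m _ => ?_
  rw [ext_monomial64]
  have h1 : (monomial m (coeff m g) : MvPolynomial σ k₀) = coeff m g • monomial m 1 := by
    rw [smul_monomial, smul_eq_mul, mul_one]
  rw [h1, map_smul, smul_eq_mul, map_mul]
  ring

theorem funct_zero64 (K : Type u) [Field K] [Algebra k₀ K] {I : Ideal (MvPolynomial σ k₀)} (lam : MvPolynomial σ k₀ →ₗ[k₀] k₀)
    (hlam : ∀ p ∈ I, lam p = 0) (w : MvPolynomial σ K) (hw : w ∈ I.map (MvPolynomial.map (algebraMap k₀ K))) :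
    ext64 K lam w = 0 := by
  classical
  have key : ∀ w ∈ I.map (MvPolynomial.map (algebraMap k₀ K)), ∀ a, ext64 K lam (a * w) = 0 := by
    intro w hw
    refine Submodule.span_induction ?_ ?_ ?_ ?_ hw
    · rintro _ ⟨g, hg, rfl⟩ a
      conv_lhs => rw [a.as_sum]
      rw [Finset.sum_mul, map_sum]
      refine Finset.sum_eq_zero fun m _ => ?_
      have h1 : (monomial m (coeff m a) : MvPolynomial σ K) * MvPolynomial.map (algebraMap k₀ K) g =
          C (coeff m a) * MvPolynomial.map (algebraMap k₀ K) (monomial m 1 * g) := by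
        rw [map_mul, map_monomial, map_one, ← mul_assoc, C_mul_monomial, mul_one]
      rw [h1, ext_map64, hlam _ (I.mul_mem_left _ hg), map_zero, mul_zero]
    · intro a
      rw [mul_zero, map_zero]
    · intro x y _ _ hx hy a
      rw [mul_add, map_add, hx, hy, add_zero]
    · intro b x _ hx a
      rw [smul_eq_mul, ← mul_assoc]
      exact hx _
  have := key w hw 1
  rwa [one_mul] at this

theorem exists_funct64 (L : Type u) [Field L] [Algebra k₀ L] {I : Ideal (MvPolynomial σ k₀)} (G : MvPolynomial σ L)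
    (hG : G ∉ I.map (MvPolynomial.map (algebraMap k₀ L))) :
    ∃ lam : MvPolynomial σ k₀ →ₗ[k₀] k₀, (∀ p ∈ I, lam p = 0) ∧ ext64 L lam G ≠ 0 := by
  classical
  obtain ⟨n, v, Q, hv, hGQ⟩ := decomp64 (k₀ := k₀) G
  have h1 : ∃ j, Q j ∉ I := by
    by_contra hcon
    push Not at hcon
    apply hG
    rw [hGQ]
    exact Ideal.sum_mem _ fun j _ => Ideal.mul_mem_left _ _ (Ideal.mem_map_of_mem _ (hcon j))
  obtain ⟨j, hj⟩ := h1
  have h2 : Ideal.Quotient.mk I (Q j) ≠ 0 := fun h => hj (Ideal.Quotient.eq_zero_iff_mem.1 h)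
  obtain ⟨φ, hφ⟩ : ∃ φ : Module.Dual k₀ (MvPolynomial σ k₀ ⧸ I), φ (Ideal.Quotient.mk I (Q j)) ≠ 0 := by
    by_contra hcon
    push Not at hcon
    exact h2 ((Module.forall_dual_apply_eq_zero_iff k₀ _).1 hcon)
  refine ⟨φ ∘ₗ (Ideal.Quotient.mkₐ k₀ I).toLinearMap, fun p hp => ?_, fun h => ?_⟩
  · show φ (Ideal.Quotient.mk I p) = 0
    rw [Ideal.Quotient.eq_zero_iff_mem.2 hp, map_zero]
  · rw [hGQ, map_sum] at h
    simp_rw [ext_map64] at h
    have h3 : ∑ i, (φ (Ideal.Quotient.mk I (Q i))) • v i = 0 := by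
      rw [← h]
      refine Finset.sum_congr rfl fun i _ => ?_
      rw [Algebra.smul_def, mul_comm]
      rfl
    exact hφ (Fintype.linearIndependent_iff.1 hv _ h3 j)

end funct

end Pool.Agent.TRI
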