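import Pool.Agent.Helper64.UD.MainM
import Pool.Agent.Helper16.GS.Uniform

/-!
# TRI, S1: the germ of the sequence has rank at most one over the slow germs
-/

set_option autoImplicit false
set_option linter.unusedSectionVars false

namespace Pool.Agent.TRI

open NumberField IntermediateField Pool.Agent.Helper64.Vojta Pool.Agent.VZ Pool.Agent.SL Pool.Agent.PC Pool.Agent.UD
open Filter Topology MvPolynomial
open Pool.Agent.Helper77.AU (hgt_nonneg out_le_of hgt_le)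

universe u

/-- the polynomial `Φ` -/
theorem good_phi64 {k₀ : Type u} [Field k₀] {N q r : ℕ} (hq : 2 * r + 2 ≤ q) (I : Set (MvPolynomial (Fin (N + 1)) k₀))
    (hI : GS.Homog I) (hD : GS.Dim k₀ I 2) :
    ∃ Φ : MvPolynomial (Fin q × Fin (N + 1)) k₀, Φ ≠ 0 ∧ ∀ (K : Type u) [Field K] [Algebra k₀ K]
      (ℓ : Fin q → Fin (N + 1) → K), aeval (fun p : Fin q × Fin (N + 1) => ℓ p.1 p.2) Φ ≠ 0 →
      GS.GP K (GS.ext K I) ℓ 2 ∧ ∀ d ≤ r, ∀ A V ι, GS.Comb 2 A V ι → ¬ GS.Bad I d A V ι ℓ := by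
  classical
  obtain ⟨Φ₀, hΦ₀, hG⟩ := GS.gp_generic_ext (q := q) I hD
  have hq' : ∀ d ∈ Finset.range (r + 1), d * 2 + 2 ≤ q := by
    intro d hd
    have h1 : d ≤ r := by
      rw [Finset.mem_range] at hd
      omega
    omega
  have hb : ∀ d : ℕ, ∃ Φ : MvPolynomial (Fin q × Fin (N + 1)) k₀, Φ ≠ 0 ∧ (d ∈ Finset.range (r + 1) →
      ∀ (K : Type u) [Field K] [Algebra k₀ K] (ℓ : Fin q → Fin (N + 1) → K) (A V : Finset (Fin q))
        (ι : Fin q → Fin q), GS.Comb 2 A V ι → GS.Bad I d A V ι ℓ →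
        aeval (fun p : Fin q × Fin (N + 1) => ℓ p.1 p.2) Φ = 0) := by
    intro d
    by_cases hd : d ∈ Finset.range (r + 1)
    · obtain ⟨Φ, h1, h2⟩ := GS.bad_poly_of (n := 2) (q := q) d I (fun L _ _ ℓ A V ι hc hind =>
        GS.not_bad_of I hI A V ι hc (fun K _ _ l μ h1 h2 x hx hX =>
          GS.special I hD le_rfl (hq' d hd) A V ι hc l μ h1 h2 x hx hX) ℓ hind)
      exact ⟨Φ, h1, fun _ => h2⟩
    · exact ⟨1, one_ne_zero, fun h => absurd h hd⟩
  choose Φ hΦ hB using hb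
  refine ⟨Φ₀ * ∏ d ∈ Finset.range (r + 1), Φ d, mul_ne_zero hΦ₀ (Finset.prod_ne_zero_iff.2 fun d _ => hΦ d), ?_⟩
  intro K _ _ ℓ hℓ
  rw [map_mul, map_prod, mul_ne_zero_iff, Finset.prod_ne_zero_iff] at hℓ
  refine ⟨hG K ℓ hℓ.1, fun d hd A V ι hc hbad => ?_⟩
  have hd' : d ∈ Finset.range (r + 1) := Finset.mem_range.2 (by omega)
  exact hℓ.2 d hd' (hB d hd' K ℓ A V ι hc hbad)

/-- the scale of a sequence of points -/
noncomputable def sc64 {k : Type u} [Field k] [NumberField k] {N : ℕ} (y : ℕ → Fin N → AlgebraicClosure k) :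
    PUnit.{u + 1} → ℕ → ℝ := fun _ j => hgt (y j)

/-- the ultrafilter on a point -/
noncomputable def pt64 : Ultrafilter PUnit.{u + 1} := pure PUnit.unit

theorem ev_pt64 {p : PUnit.{u + 1} × ℕ → Prop} (U : Ultrafilter ℕ) :
    (∀ᶠ x in (PU pt64 U : Filter (PUnit.{u + 1} × ℕ)), p x) ↔ ∀ᶠ j in (U : Filter ℕ), p (PUnit.unit, j) :=
  Iff.rfl

theorem glueS64 {k₀ : Type u} [Field k₀] (k : Type u) [Field k] [NumberField k] [Algebra k₀ k] {N q : ℕ} (r : ℕ)
    (hq : 2 * r + 2 ≤ q) (I : Set (MvPolynomial (Fin (N + 1)) k₀)) (hI : GS.Homog I)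
    (Φ : MvPolynomial (Fin q × Fin (N + 1)) k₀)
    (hΦ : ∀ (K : Type u) [Field K] [Algebra k₀ K] (ℓ : Fin q → Fin (N + 1) → K),
      aeval (fun p : Fin q × Fin (N + 1) => ℓ p.1 p.2) Φ ≠ 0 →
      GS.GP K (GS.ext K I) ℓ 2 ∧ ∀ A V ι, GS.Comb 2 A V ι → ¬ GS.Bad I r A V ι ℓ)
    (ℓ : ℕ → Fin q → Fin (N + 1) → k) (hℓ : ∀ a, aeval (fun p : Fin q × Fin (N + 1) => ℓ a p.1 p.2) Φ ≠ 0)
    (S : Finset (Pl k)) (ε θ : ℕ → ℝ) (hε0 : ∀ j, 0 ≤ ε j) (hε1 : ∀ j, ε j ≤ 1) (hε : Tendsto ε atTop (𝓝 0))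
    (hθ0 : ∀ j, 0 ≤ θ j) (hθ : Tendsto θ atTop atTop) (y : ℕ → Fin N → AlgebraicClosure k)
    (hyI : ∀ j, ∀ f ∈ I, aeval (Fin.cons 1 (y j) : Fin (N + 1) → AlgebraicClosure k) f = 0)
    (hyr : ∀ j, dg (y j) = r)
    (hyD : ∀ j l, ∑ a, algebraMap k (fld (y j)) (ℓ j l a) * crd (y j) a ≠ 0)
    (hyN : ∀ j : ℕ, (q - ε j) * hgt (y j) + θ j * (1 + hF (ℓ j)) < lam (ℓ j) S (y j)) :
    ∃ ht : Sc (hyperfilter ℕ : Ultrafilter ℕ) (sc64 y),
      ¬ ((2 : ℕ) : ℕ∞) ≤ GS.rk (SKt pt64 (hyperfilter ℕ) (fun _ : PUnit.{u + 1} => k) (sc64 y) ht)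
        (GS.Rat fun a : Fin (N + 1) => (gO fun p : PUnit.{u + 1} × ℕ =>
          (Fin.cons 1 (y p.2) : Fin (N + 1) → AlgebraicClosure k) a :
            OO pt64 (hyperfilter ℕ) (fun _ : PUnit.{u + 1} => k))) := by
  classical
  set U : Ultrafilter ℕ := Filter.hyperfilter ℕ with hU
  have hUtop : (U : Filter ℕ) ≤ atTop := by
    rw [← Nat.cofinite_eq_atTop]
    exact Filter.hyperfilter_le_cofinite
  let i₀ : Fin q := ⟨0, by omega⟩
  obtain ⟨C₀, hC₀, hlam⟩ := lam_le_m (k := k) S (n := N) (q := q) r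
  obtain ⟨C₁, hC₁, hunits⟩ := units_plus_m (k := k) S (n := N) (q := q) r i₀
  set t : PUnit.{u + 1} → ℕ → ℝ := sc64 y with ht_def
  have htv : ∀ i j, t i j = hgt (y j) := fun _ _ => rfl
  have hge' : ∀ j : ℕ, (θ j - C₀) * (1 + hF (ℓ j)) ≤ hgt (y j) := by
    intro j
    have h1 := hyN j
    have h2 := hlam (ℓ j) (y j) (hyr j).le (hyD j)
    have h3 := hgt_nonneg (y j)
    have h4 := mul_le_mul_of_nonneg_right (hε1 j) h3
    nlinarith
  have hge : ∀ j : ℕ, θ j - C₀ ≤ hgt (y j) := by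
    intro j
    have h1 := hge' j
    have h2 := hF_nonneg (ℓ j)
    have h3 : 0 ≤ hgt (y j) := hgt_nonneg (y j)
    rcases le_total (θ j - C₀) 0 with h | h
    · exact h.trans h3
    · nlinarith
  have ht : Sc U t := by
    intro i
    refine Tendsto.mono_left ?_ hUtop
    refine tendsto_atTop_mono hge ?_
    exact tendsto_atTop_add_const_right _ _ hθ
  refine ⟨ht, fun hgen => ?_⟩
  have hsmall : ∀ C : ℝ, 0 ≤ C → ∀ η : ℝ, 0 < η →
      ∀ᶠ p in (PU pt64 U : Filter (PUnit.{u + 1} × ℕ)), C * (1 + hF (ℓ p.2)) ≤ η * t p.1 p.2 := by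
    intro C hC η hη
    rw [ev_pt64]
    have h1 : ∀ᶠ j : ℕ in (U : Filter ℕ), C / η + C₀ ≤ θ j := hUtop (hθ.eventually_ge_atTop (C / η + C₀))
    filter_upwards [h1] with j hj
    have h2 := hge' j
    have h3 := hF_nonneg (ℓ j)
    have h4 : C / η * (1 + hF (ℓ j)) ≤ hgt (y j) :=
      (mul_le_mul_of_nonneg_right (by linarith) (by linarith)).trans h2
    have h5 : C * (1 + hF (ℓ j)) = η * (C / η * (1 + hF (ℓ j))) := by
      field_simp
    show C * (1 + hF (ℓ j)) ≤ η * hgt (y j)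
    rw [h5]
    exact mul_le_mul_of_nonneg_left h4 hη.le
  have hslow : ∀ i a, Slw pt64 U t (k := fun _ => k) fun p : PUnit.{u + 1} × ℕ => ℓ p.2 i a := by
    intro i a η hη
    filter_upwards [hsmall 1 zero_le_one η hη] with p hp
    have h1 := le_hF (ℓ p.2) i a
    linarith
  -- the units
  have hE : ∀ j, 0 ≤ ε j * hgt (y j) := fun j => mul_nonneg (hε0 j) (hgt_nonneg _)
  have hNE : ∀ j, q * hgt (y j) - ε j * hgt (y j) ≤ lam (ℓ j) S (y j) := by
    intro j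
    have h1 := hyN j
    have h2 := hF_nonneg (ℓ j)
    have : (0 : ℝ) ≤ θ j * (1 + hF (ℓ j)) := mul_nonneg (hθ0 j) (by linarith)
    linarith
  choose x s c' u hc' hxs hx1 hxu hxh hxT hxf using fun j =>
    hunits (ℓ j) (y j) _ (hyr j) (hE j) (hyD j) (hNE j)
  obtain ⟨s0, hs0⟩ := const_fin (PU pt64 U) fun p : PUnit.{u + 1} × ℕ => s p.2
  obtain ⟨D, hD⟩ := slow_dat (W := pt64) (k := fun _ => k) coreE_all (fun _ => S.toRight) ht
  have hAU : ∀ l, AUf pt64 U (fun _ => S.toRight) t (k := fun _ => k) (fun p => u p.2 l) := by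
    intro l
    refine ⟨Eventually.of_forall fun p => (hxu p.2 l).1, fun η hη => ?_⟩
    have h1 : ∀ᶠ p in (PU pt64 U : Filter (PUnit.{u + 1} × ℕ)), ε p.2 ≤ η / (4 * (r + 1)) := by
      rw [ev_pt64]
      refine hUtop ?_
      have h2 : (0 : ℝ) < η / (4 * (r + 1)) := by positivity
      exact (hε.eventually_lt_const h2).mono fun j hj => hj.le
    filter_upwards [h1, hsmall C₁ hC₁ _ (half_pos hη), ht.pos (W := pt64)] with p h2 h3 h4
    have h5 := out_le_of S (hxu p.2 l).1 _ (hxT p.2 l)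
    refine h5.trans ?_
    have h6 : 2 * (r : ℝ) * (ε p.2 * hgt (y p.2)) ≤ η / 2 * t p.1 p.2 := by
      have h7 : (0 : ℝ) < 4 * (r + 1) := by positivity
      rw [le_div_iff₀ h7] at h2
      have h8 : 2 * (r : ℝ) * ε p.2 ≤ η / 2 := by nlinarith [hε0 p.2]
      have h9 := mul_le_mul_of_nonneg_right h8 h4.le
      show 2 * (r : ℝ) * (ε p.2 * t p.1 p.2) ≤ _
      linarith
    linarith
  let X : Fin r → Fin (N + 1) → OO pt64 U (fun _ : PUnit.{u + 1} => k) := fun σ a => gO fun p : PUnit.{u + 1} × ℕ => x p.2 σ a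
  let L : Fin q → Fin (N + 1) → SKt pt64 U (fun _ : PUnit.{u + 1} => k) t ht := fun i a =>
    sk ht (fun p : PUnit.{u + 1} × ℕ => ℓ p.2 i a) (hslow i a)
  have huu : ∀ i, GS.uu L X i = ek fun p : PUnit.{u + 1} × ℕ => u p.2 i := by
    intro i
    rw [ek_apply]
    have h : (fun p : PUnit.{u + 1} × ℕ => algebraMap k (AlgebraicClosure k) (u p.2 i)) =
        ∏ σ, fun p : PUnit.{u + 1} × ℕ => ∑ a, algebraMap k (AlgebraicClosure k) (ℓ p.2 i a) * x p.2 σ a := by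
      funext p
      rw [Finset.prod_apply]
      exact (hxu p.2 i).2
    refine Eq.trans ?_ (congrArg (mk (PU pt64 U) (fun _ : PUnit.{u + 1} × ℕ => AlgebraicClosure k)) h).symm
    rw [map_prod]
    unfold GS.uu
    refine Finset.prod_congr rfl fun σ _ => ?_
    unfold GS.lin
    have h' : (fun p : PUnit.{u + 1} × ℕ => ∑ a, algebraMap k (AlgebraicClosure k) (ℓ p.2 i a) * x p.2 σ a) =
        ∑ a, (fun p : PUnit.{u + 1} × ℕ => algebraMap k (AlgebraicClosure k) (ℓ p.2 i a)) *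
          fun p : PUnit.{u + 1} × ℕ => x p.2 σ a := by
      funext p
      rw [Finset.sum_apply]
      rfl
    rw [h', map_sum]
    refine Finset.sum_congr rfl fun a _ => ?_
    rw [map_mul]
    rfl
  have hc0 : (gO fun p : PUnit.{u + 1} × ℕ => c' p.2 : OO pt64 U (fun _ : PUnit.{u + 1} => k)) ≠ 0 := by
    intro h
    have h1 := (mk_zero (PU pt64 U)).1 h
    obtain ⟨p, hp⟩ := h1.exists
    exact hc' p.2 hp
  have hXs0 : X s0 = fun a => (gO (fun p : PUnit.{u + 1} × ℕ => c' p.2) : OO pt64 U (fun _ : PUnit.{u + 1} => k)) *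
      (gO fun p : PUnit.{u + 1} × ℕ => (Fin.cons 1 (y p.2) : Fin (N + 1) → AlgebraicClosure k) a) := by
    funext a
    have h1 : (gO fun p : PUnit.{u + 1} × ℕ => c' p.2 * (Fin.cons 1 (y p.2) : Fin (N + 1) → AlgebraicClosure k) a :
        OO pt64 U (fun _ : PUnit.{u + 1} => k)) = gO (fun p : PUnit.{u + 1} × ℕ => c' p.2) *
          gO fun p : PUnit.{u + 1} × ℕ => (Fin.cons 1 (y p.2) : Fin (N + 1) → AlgebraicClosure k) a :=
      map_mul (mk (PU pt64 U) _) _ _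
    rw [← h1]
    refine (mk_eq (PU pt64 U)).2 ?_
    filter_upwards [hs0] with p hp
    rw [← hp]
    exact hxs p.2 a
  have hXI : ∀ σ, GS.OnX (GS.ext (SKt pt64 U (fun _ : PUnit.{u + 1} => k) t ht) I) (X σ) := by
    rintro σ _ ⟨f, hf, rfl⟩
    obtain ⟨e, he⟩ := hI f hf
    rw [aeval_def, eval₂_map]
    have h1 : eval₂ ((algebraMap (SKt pt64 U (fun _ : PUnit.{u + 1} => k) t ht) (OO pt64 U (fun _ : PUnit.{u + 1} => k))).comp
        (algebraMap k₀ (SKt pt64 U (fun _ : PUnit.{u + 1} => k) t ht))) (X σ) f =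
        mk (PU pt64 U) (fun _ => AlgebraicClosure k) fun p : PUnit.{u + 1} × ℕ =>
          eval₂ ((algebraMap k (AlgebraicClosure k)).comp (algebraMap k₀ k)) (x p.2 σ) f :=
      eval₂_mk (PU pt64 U) (K := fun _ : PUnit.{u + 1} × ℕ => k) f fun p => x p.2 σ
    rw [h1, mk_zero]
    refine Eventually.of_forall fun p => ?_
    have h2 := hxf p.2 σ e (MvPolynomial.map (algebraMap k₀ k) f) (he.map _) (by
      rw [aeval_map_algebraMap]
      exact hyI p.2 f hf)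
    rw [aeval_def, eval₂_map] at h2
    exact h2
  have hΦL : aeval (fun p : Fin q × Fin (N + 1) => L p.1 p.2) Φ ≠ 0 := by
    intro h0'
    have h1 : incl ht (aeval (fun p : Fin q × Fin (N + 1) => L p.1 p.2) Φ) =
        mk (PU pt64 U) (fun _ => k) fun p : PUnit.{u + 1} × ℕ => aeval (fun c : Fin q × Fin (N + 1) => ℓ p.2 c.1 c.2) Φ := by
      rw [aeval_def, MvPolynomial.hom_eval₂]
      have h2 := aeval_mk (PU pt64 U) Φ (K := fun _ : PUnit.{u + 1} × ℕ => k) fun p => fun c : Fin q × Fin (N + 1) => ℓ p.2 c.1 c.2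
      rw [aeval_def] at h2
      exact h2
    rw [h0', map_zero, eq_comm, mk_zero] at h1
    obtain ⟨i, h2⟩ := h1.exists
    exact hℓ i.2 h2
  have hgen' : ((2 : ℕ) : ℕ∞) ≤ GS.rk (SKt pt64 U (fun _ : PUnit.{u + 1} => k) t ht) (GS.Rat (X s0)) := by
    rw [hXs0, GS.Rat_mul _ _ hc0]
    exact hgen
  have hDU : ∀ i j, D.U (GS.uu L X i / GS.uu L X j) := by
    intro i j
    rw [huu, huu, ← ek_div]
    exact hD _ ((hAU i).div (hAU j))
  obtain ⟨F, Ω, _, _, _, _, _, _, hT1, hT2, hF, hgenF, hrank⟩ := GS.init D L s0 X hDU hgen'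
  have hu' : (GS.uu (fun i j => algebraMap (SKt pt64 U (fun _ : PUnit.{u + 1} => k) t ht) F (L i j))
      fun σ j => algebraMap (OO pt64 U (fun _ : PUnit.{u + 1} => k)) Ω (X σ j)) =
      fun i => algebraMap (OO pt64 U (fun _ : PUnit.{u + 1} => k)) Ω (GS.uu L X i) := by
    funext i
    unfold GS.uu
    rw [map_prod]
    refine Finset.prod_congr rfl fun σ _ => ?_
    unfold GS.lin
    rw [map_sum]
    refine Finset.sum_congr rfl fun j _ => ?_
    rw [map_mul, ← IsScalarTower.algebraMap_apply (SKt pt64 U (fun _ : PUnit.{u + 1} => k) t ht) F Ω,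
      IsScalarTower.algebraMap_apply (SKt pt64 U (fun _ : PUnit.{u + 1} => k) t ht) (OO pt64 U (fun _ : PUnit.{u + 1} => k)) Ω]
  letI algF : Algebra k₀ F := ((algebraMap (SKt pt64 U (fun _ : PUnit.{u + 1} => k) t ht) F).comp
    (algebraMap k₀ (SKt pt64 U (fun _ : PUnit.{u + 1} => k) t ht))).toAlgebra
  have towF : IsScalarTower k₀ (SKt pt64 U (fun _ : PUnit.{u + 1} => k) t ht) F := IsScalarTower.of_algebraMap_eq fun x => rfl
  obtain ⟨hGP, hbad⟩ := hΦ F (fun i j => algebraMap (SKt pt64 U (fun _ : PUnit.{u + 1} => k) t ht) F (L i j)) (by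
    have h4 : aeval (fun p : Fin q × Fin (N + 1) => algebraMap (SKt pt64 U (fun _ : PUnit.{u + 1} => k) t ht) F (L p.1 p.2)) Φ =
        algebraMap (SKt pt64 U (fun _ : PUnit.{u + 1} => k) t ht) F (aeval (fun p : Fin q × Fin (N + 1) => L p.1 p.2) Φ) :=
      aeval_algebraMap_apply F (fun p : Fin q × Fin (N + 1) => L p.1 p.2) Φ
    rw [h4]
    exact (map_ne_zero _).2 hΦL)
  obtain ⟨A, V, ι, hcomb, hb⟩ := GS.core (F := F) (Ω := Ω) (n := 2) (GS.ext F I) (GS.homog_ext hI) (by omega) (by omega)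
    (fun i j => algebraMap (SKt pt64 U (fun _ : PUnit.{u + 1} => k) t ht) F (L i j)) hGP s0
    (fun σ j => algebraMap (OO pt64 U (fun _ : PUnit.{u + 1} => k)) Ω (X σ j)) (by
      rintro σ _ ⟨f, hf, rfl⟩
      have h2 := hXI σ _ ⟨f, hf, rfl⟩
      have h1 : aeval (fun j => algebraMap (OO pt64 U (fun _ : PUnit.{u + 1} => k)) Ω (X σ j))
          (MvPolynomial.map (algebraMap k₀ (SKt pt64 U (fun _ : PUnit.{u + 1} => k) t ht)) f) =
          algebraMap (OO pt64 U (fun _ : PUnit.{u + 1} => k)) Ω (aeval (X σ)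
            (MvPolynomial.map (algebraMap k₀ (SKt pt64 U (fun _ : PUnit.{u + 1} => k) t ht)) f)) :=
        aeval_algebraMap_apply Ω (X σ) _
      rw [h2, map_zero] at h1
      have h3 : MvPolynomial.map (algebraMap k₀ F) f = MvPolynomial.map (algebraMap (SKt pt64 U (fun _ : PUnit.{u + 1} => k) t ht) F)
          (MvPolynomial.map (algebraMap k₀ (SKt pt64 U (fun _ : PUnit.{u + 1} => k) t ht)) f) := by
        rw [MvPolynomial.map_map]
        rfl
      rw [h3, aeval_map_algebraMap]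
      exact h1) (by
      intro i
      rw [hu']
      intro h
      have h1 := (hDU i i).1
      rw [(map_eq_zero _).1 h, div_zero] at h1
      exact h1 rfl) hgenF (by
      rw [hu']
      exact hrank)
  obtain ⟨σ₀, z, c', h1, h2⟩ := hb
  exact hbad A V ι hcomb ⟨σ₀, z, c', fun i hi σ f hf => by
    have h3 := h1 i hi σ _ ⟨f, hf, rfl⟩
    rwa [aeval_map_algebraMap] at h3, h2⟩

end Pool.Agent.TRI
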