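import Pool.Agent.Helper6.TRI.SDefs
import Pool.Agent.Helper64.TRI.SForm
import Pool.Agent.Helper64.TRI.SGlue

/-!
# TRI, S1: moving sections; the points are on moving curves with slow coefficients
-/

set_option autoImplicit false

namespace Pool.Agent.TRI

open Module MvPolynomial NumberField Filter Topology
open Pool.Agent.Helper64.Vojta (Pl nv sn above)
open Pool.Agent.Chart (fld dg crd hgt val lam)
open Pool.Agent.UD Pool.Agent.PC

universe u

/-- the heights of the coefficients of a form with a coefficient `t` -/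
theorem height_coeff64 {k : Type u} [Field k] [NumberField k] {N : ℕ} (l : Fin (N + 1) → k) (t : k) (ht : t ≠ 0)
    (j : Fin (N + 1)) (hj : l j = t) (b : Fin (N + 1)) :
    Height.logHeight₁ (l b) ≤ Height.logHeight₁ t + Height.logHeight l := by
  set g' : Fin (N + 1) → k := fun b => t⁻¹ * l b with hg'
  have hg1 : g' j = 1 := by
    rw [hg']
    simp only
    rw [hj, inv_mul_cancel₀ ht]
  have h1 : l b = t * g' b := by
    rw [hg']
    simp only
    rw [mul_inv_cancel_left₀ ht]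
  have h2 : Height.logHeight g' = Height.logHeight l := Height.logHeight_smul_eq_logHeight l (inv_ne_zero ht)
  rw [h1]
  refine (Height.logHeight₁_mul_le _ _).trans (add_le_add le_rfl ?_)
  rw [← h2, Height.logHeight₁_eq_logHeight]
  have h6 : ![g' b, 1] = g' ∘ ![b, j] := by
    funext c
    fin_cases c
    · rfl
    · exact hg1.symm
  rw [h6]
  exact Height.logHeight_comp_le _ _

/-- the equations after a permutation of the coordinates -/
def prm64 {k₀ : Type u} [Field k₀] {N : ℕ} (I : Ideal (MvPolynomial (Fin (N + 1)) k₀)) (σ : Equiv.Perm (Fin (N + 1))) :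
    Set (MvPolynomial (Fin (N + 1)) k₀) := {g | ∃ f ∈ I, (∃ e, f.IsHomogeneous e) ∧ g = rename σ f}

theorem Rat_comp64 {K : Type u} [Field K] {N : ℕ} (y : Fin (N + 1) → K) (σ : Equiv.Perm (Fin (N + 1))) :
    GS.Rat (fun a => y (σ a)) = GS.Rat y := by
  ext z
  constructor
  · rintro ⟨a, b, rfl⟩
    exact ⟨σ a, σ b, rfl⟩
  · rintro ⟨a, b, rfl⟩
    refine ⟨σ.symm a, σ.symm b, ?_⟩
    simp only [Equiv.apply_symm_apply]

theorem homog_prm64 {k₀ : Type u} [Field k₀] {N : ℕ} (I : Ideal (MvPolynomial (Fin (N + 1)) k₀)) (σ : Equiv.Perm (Fin (N + 1))) :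
    GS.Homog (prm64 I σ) := by
  rintro _ ⟨f, -, ⟨e, he⟩, rfl⟩
  exact ⟨e, he.rename_isHomogeneous⟩

theorem dim_prm64 {k₀ : Type u} [Field k₀] {N : ℕ} {I : Ideal (MvPolynomial (Fin (N + 1)) k₀)} (hX : Surf I)
    (σ : Equiv.Perm (Fin (N + 1))) : GS.Dim k₀ (prm64 I σ) 2 := by
  intro K _ _ y hy
  have := hX.prime
  rw [← Rat_comp64 y σ]
  refine GS.dim_le_hom I hX.hom (by rw [hX.tr]; norm_num) K (fun a => y (σ a)) ?_
  rintro f ⟨hf, e, he⟩
  have h1 := hy _ ⟨f, hf, ⟨e, he⟩, rfl⟩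
  rw [aeval_rename] at h1
  exact h1

/-- one chart -/
theorem chart64 {k₀ : Type u} [Field k₀] {N q r : ℕ} (hq : 2 * r + 2 ≤ q)
    {I : Ideal (MvPolynomial (Fin (N + 1)) k₀)} (hX : Surf I) (j₀ : Fin (N + 1)) :
    ∃ Φ : MvPolynomial (Fin q × Fin (N + 1)) k₀, Φ ≠ 0 ∧ ∀ (K : Type u) [Field K] [Algebra k₀ K]
      (ℓ : Fin q → Fin (N + 1) → K), aeval (fun p : Fin q × Fin (N + 1) => ℓ p.1 p.2) Φ ≠ 0 →
      GS.GP K (GS.ext K (prm64 I (Equiv.swap 0 j₀))) ℓ 2 ∧
        ∀ d ≤ r, ∀ A V ι, GS.Comb 2 A V ι → ¬ GS.Bad (prm64 I (Equiv.swap 0 j₀)) d A V ι ℓ :=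
  good_phi64 hq _ (homog_prm64 I _) (dim_prm64 hX _)

theorem nondense_s {k₀ : Type u} [Field k₀] [NumberField k₀] {N q r : ℕ} (hq : 2 * r + 2 ≤ q)
    {I : Ideal (MvPolynomial (Fin (N + 1)) k₀)} (hX : Surf I) :
    ∃ Φ : MvPolynomial (Fin q × Fin (N + 1)) k₀, Φ ≠ 0 ∧
      ∀ (k : Type u) [Field k] [NumberField k] [Algebra k₀ k] (S : Finset (Pl k)) (l : ℕ → Fin q → Fin (N + 1) → k)
      (x : ℕ → Fin (N + 1) → AlgebraicClosure k), (∀ a, aeval (fun p : Fin q × Fin (N + 1) => l a p.1 p.2) Φ ≠ 0) →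
      (∀ a, OnX I (x a)) → BadS r S l x →
      ∃ (e : ℕ) (G : ℕ → MvPolynomial (Fin (N + 1)) k), (∀ a, (G a).IsHomogeneous e) ∧
        (∀ a, G a ∉ I.map (MvPolynomial.map (algebraMap k₀ k))) ∧
        (∀ᶠ a in (hyperfilter ℕ : Filter ℕ), aeval (x a) (G a) = 0) ∧ ∀ m, SlowS x fun a => coeff m (G a) := by
  classical
  choose Φ hΦ0 hΦ using chart64 (q := q) (r := r) hq hX
  have hinj : ∀ j₀ : Fin (N + 1), Function.Injective fun p : Fin q × Fin (N + 1) => (p.1, Equiv.swap 0 j₀ p.2) := by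
    rintro j₀ ⟨a, b⟩ ⟨c, d⟩ h3
    rw [Prod.mk.injEq] at h3 ⊢
    exact ⟨h3.1, (Equiv.swap 0 j₀).injective h3.2⟩
  refine ⟨∏ j, rename (fun p : Fin q × Fin (N + 1) => (p.1, Equiv.swap 0 j p.2)) (Φ j),
    Finset.prod_ne_zero_iff.2 fun j _ h0 => hΦ0 j ?_, ?_⟩
  · rw [← map_zero (rename fun p : Fin q × Fin (N + 1) => (p.1, Equiv.swap 0 j p.2))] at h0
    exact rename_injective _ (hinj j) h0
  intro k _ _ _ S l x hl hx hb
  set U : Ultrafilter ℕ := Filter.hyperfilter ℕ with hU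
  have hUtop : (U : Filter ℕ) ≤ atTop := by
    rw [← Nat.cofinite_eq_atTop]
    exact Filter.hyperfilter_le_cofinite
  -- the chart and the degree
  choose j₁ hj₁ using hb.one
  obtain ⟨j₀, hj₀⟩ : ∃ j₀, ∀ᶠ a in (U : Filter ℕ), j₁ a = j₀ :=
    Pool.Agent.Helper26.DMC.SU1.ult_finite U (Set.univ : Set (Fin (N + 1)))
      Set.finite_univ j₁ (Eventually.of_forall fun _ => Set.mem_univ _)
  obtain ⟨r', hr'⟩ : ∃ r', ∀ᶠ a in (U : Filter ℕ), dg (x a) = r' :=
    Pool.Agent.Helper26.DMC.SU1.ult_finite U (Set.Iic r)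
      (Set.finite_Iic r) (fun a => dg (x a)) (Eventually.of_forall fun a => hb.deg a)
  have hA : ∀ᶠ a in (U : Filter ℕ), x a j₀ = 1 ∧ dg (x a) = r' := by
    filter_upwards [hj₀, hr'] with a h1 h2
    exact ⟨h1 ▸ hj₁ a, h2⟩
  have hnx : ∀ a : ℕ, ∃ b, a ≤ b ∧ x b j₀ = 1 ∧ dg (x b) = r' := by
    intro a
    obtain ⟨b, h1, h2⟩ := (hA.and (hUtop (eventually_ge_atTop a))).exists
    exact ⟨b, h2, h1⟩
  let nx : ℕ → ℕ := fun a => if x a j₀ = 1 ∧ dg (x a) = r' then a else (hnx a).choose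
  have hnx1 : ∀ a, a ≤ nx a ∧ x (nx a) j₀ = 1 ∧ dg (x (nx a)) = r' := by
    intro a
    by_cases h : x a j₀ = 1 ∧ dg (x a) = r'
    · have h1 : nx a = a := if_pos h
      rw [h1]
      exact ⟨le_rfl, h⟩
    · have h1 : nx a = (hnx a).choose := if_neg h
      rw [h1]
      exact (hnx a).choose_spec
  have hnx2 : ∀ᶠ a in (U : Filter ℕ), nx a = a := hA.mono fun a ha => if_pos ha
  have hr'r : r' ≤ r := by
    obtain ⟨-, -, h⟩ := hnx1 0
    rw [← h]
    exact hb.deg _
  -- the heights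
  obtain ⟨t, ht0, ht⟩ := hb.nrm
  set T : ℝ := ∑ i, Height.logHeight₁ (t i) with hT
  have hT0 : 0 ≤ T := Finset.sum_nonneg fun i _ => Height.zero_le_logHeight₁ _
  set c : ℝ := 1 / ((N + 1) * (1 + T)) with hc
  have hc0 : 0 < c := by positivity
  have hHF : ∀ a, c * (1 + hF (l a)) ≤ 1 + ∑ i, Height.logHeight (l a i) := by
    intro a
    have h1 : hF (l a) ≤ (N + 1) * (T + ∑ i, Height.logHeight (l a i)) := by
      unfold hF
      rw [hT, ← Finset.sum_add_distrib, Finset.mul_sum]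
      refine Finset.sum_le_sum fun i _ => ?_
      obtain ⟨j, hj⟩ := ht a i
      refine (Finset.sum_le_sum fun b _ => height_coeff64 (l a i) (t i) (ht0 i) j hj b).trans (le_of_eq ?_)
      rw [Finset.sum_const, Finset.card_univ, Fintype.card_fin, nsmul_eq_mul]
      push_cast
      ring
    have h2 : 0 ≤ ∑ i, Height.logHeight (l a i) := Finset.sum_nonneg fun i _ => Height.logHeight_nonneg _
    have hN : (0 : ℝ) ≤ N := Nat.cast_nonneg N
    rw [hc, one_div, inv_mul_le_iff₀ (by positivity)]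
    nlinarith [mul_nonneg hN hT0, mul_nonneg hN h2, mul_nonneg hT0 h2, mul_nonneg (mul_nonneg hN hT0) h2]
  -- the germ
  obtain ⟨hS, hrk⟩ := glueS64 k r' (by omega : 2 * r' + 2 ≤ q) (prm64 I (Equiv.swap 0 j₀)) (homog_prm64 I _) (Φ j₀)
    (fun K _ _ ℓ hℓ => ⟨(hΦ j₀ K ℓ hℓ).1, (hΦ j₀ K ℓ hℓ).2 r' hr'r⟩)
    (fun a i => l (nx a) i ∘ Equiv.swap 0 j₀) (by
      intro a
      have h1 := hl (nx a)
      rw [map_prod, Finset.prod_ne_zero_iff] at h1
      have h2 := h1 j₀ (Finset.mem_univ j₀)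
      rw [aeval_rename] at h2
      exact h2) S (fun a => 1 / ((a : ℝ) + 1)) (fun a => a * c) (fun a => by positivity)
    (fun a => by
      rw [div_le_one (by positivity)]
      have : (0 : ℝ) ≤ (a : ℝ) := Nat.cast_nonneg _
      linarith) tendsto_one_div_add_atTop_nhds_zero_nat (fun a => by positivity)
    (tendsto_natCast_atTop_atTop.atTop_mul_const hc0)
    (fun a => Pool.Agent.Chart.aff (x (nx a)) j₀) (by
      rintro a _ ⟨f, hf, -, rfl⟩
      rw [Pool.Agent.Chart.cons_aff _ _ (hnx1 a).2.1, aeval_rename]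
      have h1 : (x (nx a) ∘ Equiv.swap 0 j₀) ∘ Equiv.swap 0 j₀ = x (nx a) := by
        funext b
        show x (nx a) (Equiv.swap 0 j₀ (Equiv.swap 0 j₀ b)) = _
        rw [Equiv.swap_apply_self]
      rw [h1]
      exact hx _ f hf) (fun a => by rw [Pool.Agent.Chart.dg_aff _ _ (hnx1 a).2.1]; exact (hnx1 a).2.2)
    (fun a i h => hb.out (nx a) i ((Pool.Agent.Chart.val_aff _ j₀ (hnx1 a).2.1 (l (nx a) i)).1 h)) (by
      intro a
      rw [Pool.Agent.Chart.hgt_aff _ _ (hnx1 a).2.1, Pool.Agent.Chart.lam_aff _ _ (hnx1 a).2.1]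
      have h1 := hb.big (nx a)
      have h2 : hF (fun i => l (nx a) i ∘ Equiv.swap 0 j₀) = hF (l (nx a)) := hF_comp (Equiv.swap 0 j₀) (l (nx a))
      have h3 : (a : ℝ) ≤ nx a := by exact_mod_cast (hnx1 a).1
      have h4 : 1 / ((nx a : ℝ) + 1) ≤ 1 / ((a : ℝ) + 1) :=
        one_div_le_one_div_of_le (by positivity) (by linarith)
      have h5 : 0 ≤ hgt (x (nx a)) := by
        unfold hgt
        exact div_nonneg (Height.logHeight_nonneg _) (Nat.cast_nonneg _)
      have h6 : 0 ≤ 1 + ∑ i, Height.logHeight (l (nx a) i) :=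
        add_nonneg zero_le_one (Finset.sum_nonneg fun i _ => Height.logHeight_nonneg _)
      rw [h2]
      have h7 : (a : ℝ) * c * (1 + hF (l (nx a))) ≤ nx a * (1 + ∑ i, Height.logHeight (l (nx a) i)) := by
        rw [mul_assoc]
        exact (mul_le_mul_of_nonneg_left (hHF (nx a)) (Nat.cast_nonneg a)).trans (mul_le_mul_of_nonneg_right h3 h6)
      have h8 : (q - 1 / ((a : ℝ) + 1)) * hgt (x (nx a)) ≤ (q - 1 / ((nx a : ℝ) + 1)) * hgt (x (nx a)) :=
        mul_le_mul_of_nonneg_right (by linarith) h5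
      linarith)
  set y : ℕ → Fin N → AlgebraicClosure k := fun a => Pool.Agent.Chart.aff (x (nx a)) j₀ with hy
  have hsc : ∀ᶠ a in (U : Filter ℕ), sc64 y PUnit.unit a = hgt (x a) := by
    filter_upwards [hnx2] with a ha
    show Pool.Agent.VZ.hgt (Pool.Agent.Chart.aff (x (nx a)) j₀) = _
    rw [Pool.Agent.Chart.hgt_aff _ _ (hnx1 a).2.1, ha]
  let KS : Type u := SKt pt64 U (fun _ : PUnit.{u + 1} => k) (sc64 y) hS
  let OS : Type u := OO pt64 U (fun _ : PUnit.{u + 1} => k)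
  let z : Fin (N + 1) → OS := fun b => gO fun p : PUnit.{u + 1} × ℕ => x (nx p.2) b
  have hzy : (fun a : Fin (N + 1) => (gO fun p : PUnit.{u + 1} × ℕ =>
      (Fin.cons 1 (y p.2) : Fin (N + 1) → AlgebraicClosure k) a : OS)) = fun a => z (Equiv.swap 0 j₀ a) := by
    funext a
    have h1 : (fun p : PUnit.{u + 1} × ℕ => (Fin.cons 1 (y p.2) : Fin (N + 1) → AlgebraicClosure k) a) =
        fun p : PUnit.{u + 1} × ℕ => x (nx p.2) (Equiv.swap 0 j₀ a) := by
      funext p
      rw [hy, Pool.Agent.Chart.cons_aff _ _ (hnx1 p.2).2.1]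
      rfl
    show (gO _ : OS) = gO _
    rw [h1]
  rw [hzy, Rat_comp64] at hrk
  have towO : IsScalarTower k₀ KS OS := IsScalarTower.of_algebraMap_eq fun x => by
    show (mk (PU pt64 U) (fun _ => AlgebraicClosure k)) (fun _ : PUnit.{u + 1} × ℕ => algebraMap k₀ (AlgebraicClosure k) x) =
      (mk (PU pt64 U) (fun _ => AlgebraicClosure k)) (fun _ : PUnit.{u + 1} × ℕ =>
        algebraMap k (AlgebraicClosure k) (algebraMap k₀ k x))
    congr 1
  have hzX : OnX I z := by
    intro f hf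
    rw [← aeval_map_algebraMap KS, aeval_def, eval₂_map]
    have h1 : eval₂ ((algebraMap KS OS).comp (algebraMap k₀ KS)) z f =
        mk (PU pt64 U) (fun _ => AlgebraicClosure k) fun p : PUnit.{u + 1} × ℕ =>
          eval₂ ((algebraMap k (AlgebraicClosure k)).comp (algebraMap k₀ k)) (x (nx p.2)) f :=
      eval₂_mk (PU pt64 U) (K := fun _ : PUnit.{u + 1} × ℕ => k) f fun p => x (nx p.2)
    rw [h1, mk_zero]
    refine Eventually.of_forall fun p => ?_
    have h2 := hx (nx p.2) f hf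
    rw [← aeval_map_algebraMap k, aeval_def, eval₂_map] at h2
    exact h2
  obtain ⟨e, G, hGe, hGI, hGz⟩ := exists_form64 (L := KS) (E := OS) hX z hzX hrk
  choose b hbs hbG using fun m => exists_slw hS (coeff m G)
  -- the polynomials
  let Ga : ℕ → MvPolynomial (Fin (N + 1)) k := fun a => ∑ m ∈ G.support, monomial m (b m (PUnit.unit, a))
  have hGa_hom : ∀ a, (Ga a).IsHomogeneous e := by
    intro a
    refine IsHomogeneous.sum _ _ _ fun m hm => ?_
    refine isHomogeneous_monomial _ ?_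
    rw [Finsupp.degree_eq_weight_one]
    exact hGe (mem_support_iff.1 hm)
  have hGa_coeff : ∀ a m, coeff m (Ga a) = if m ∈ G.support then b m (PUnit.unit, a) else 0 := by
    intro a m
    show coeff m (∑ m ∈ G.support, monomial m (b m (PUnit.unit, a))) = _
    rw [coeff_sum]
    simp only [coeff_monomial]
    rw [Finset.sum_ite_eq']
  -- the equation
  have hGa0 : ∀ᶠ a in (U : Filter ℕ), aeval (x (nx a)) (Ga a) = 0 := by
    have h1 : aeval z G = mk (PU pt64 U) (fun _ => AlgebraicClosure k) fun p : PUnit.{u + 1} × ℕ =>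
        aeval (x (nx p.2)) (Ga p.2) := by
      rw [aeval_def, eval₂_eq]
      have h2 : (fun p : PUnit.{u + 1} × ℕ => aeval (x (nx p.2)) (Ga p.2)) =
          ∑ m ∈ G.support, (fun p : PUnit.{u + 1} × ℕ => algebraMap k (AlgebraicClosure k) (b m p)) *
            ∏ i ∈ m.support, (fun p : PUnit.{u + 1} × ℕ => x (nx p.2) i) ^ m i := by
        funext p
        rw [Finset.sum_apply]
        show aeval (x (nx p.2)) (∑ m ∈ G.support, monomial m (b m (PUnit.unit, p.2))) = _
        rw [map_sum]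
        refine Finset.sum_congr rfl fun m _ => ?_
        rw [aeval_monomial, Pi.mul_apply, Finset.prod_apply]
        rfl
      rw [h2, map_sum]
      refine Finset.sum_congr rfl fun m _ => ?_
      rw [map_mul, map_prod]
      refine congrArg₂ (· * ·) ?_ (Finset.prod_congr rfl fun i _ => ?_)
      · rw [← hbG m]
        rfl
      · rw [map_pow]
        rfl
    rw [hGz, eq_comm, mk_zero] at h1
    exact (ev_pt64 U).1 h1
  -- not in the ideal
  have hGa1 : ∀ᶠ a in (U : Filter ℕ), Ga a ∉ I.map (MvPolynomial.map (algebraMap k₀ k)) := by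
    obtain ⟨lam, hlam, hlG⟩ := exists_funct64 KS G hGI
    have h1 : incl hS (ext64 KS lam G) = mk (PU pt64 U) (fun _ => k) fun p : PUnit.{u + 1} × ℕ => ext64 k lam (Ga p.2) := by
      rw [ext_sum64 KS lam G G.support subset_rfl, map_sum]
      have h2 : (fun p : PUnit.{u + 1} × ℕ => ext64 k lam (Ga p.2)) =
          ∑ m ∈ G.support, (fun p : PUnit.{u + 1} × ℕ => b m p) *
            (fun _ : PUnit.{u + 1} × ℕ => algebraMap k₀ k (lam (monomial m 1))) := by
        funext p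
        rw [Finset.sum_apply]
        show ext64 k lam (∑ m ∈ G.support, monomial m (b m (PUnit.unit, p.2))) = _
        rw [map_sum]
        refine Finset.sum_congr rfl fun m _ => ?_
        rw [ext_monomial64]
        rfl
      rw [h2, map_sum]
      refine Finset.sum_congr rfl fun m _ => ?_
      rw [map_mul, map_mul]
      congr 1
      rw [← hbG m]
      rfl
    have h3 : incl hS (ext64 KS lam G) ≠ 0 := (map_ne_zero _).2 hlG
    rw [h1, mk_ne_zero] at h3
    have h4 := (ev_pt64 U).1 h3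
    filter_upwards [h4] with a ha hcon
    exact ha (funct_zero64 k lam hlam _ hcon)
  -- the power of a coordinate
  obtain ⟨j₂, hj₂⟩ := hb.one 0
  have hpow : (X j₂ : MvPolynomial (Fin (N + 1)) k) ^ e ∉ I.map (MvPolynomial.map (algebraMap k₀ k)) := by
    intro h
    have h1 : I.map (MvPolynomial.map (algebraMap k₀ k)) ≤
        RingHom.ker (aeval (x 0) : MvPolynomial (Fin (N + 1)) k →ₐ[k] AlgebraicClosure k) := by
      rw [Ideal.map_le_iff_le_comap]
      intro F hF
      rw [Ideal.mem_comap, RingHom.mem_ker, aeval_map_algebraMap]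
      exact hx 0 F hF
    have h2 := RingHom.mem_ker.1 (h1 h)
    rw [map_pow, aeval_X, hj₂, one_pow] at h2
    exact one_ne_zero h2
  let G' : ℕ → MvPolynomial (Fin (N + 1)) k := fun a =>
    if Ga a ∉ I.map (MvPolynomial.map (algebraMap k₀ k)) then Ga a else X j₂ ^ e
  have hG' : ∀ᶠ a in (U : Filter ℕ), G' a = Ga a := hGa1.mono fun a ha => if_pos ha
  refine ⟨e, G', fun a => ?_, fun a => ?_, ?_, fun m η hη => ?_⟩
  · show (if _ then _ else _ : MvPolynomial (Fin (N + 1)) k).IsHomogeneous e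
    split_ifs
    · have h1 := (isHomogeneous_X k j₂).pow e
      rwa [one_mul] at h1
    · exact hGa_hom a
  · show (if _ then _ else _ : MvPolynomial (Fin (N + 1)) k) ∉ _
    split_ifs with h
    · exact hpow
    · exact h
  · filter_upwards [hG', hGa0, hnx2] with a h1 h2 h3
    rw [h1]
    rwa [h3] at h2
  · have h1 := (ev_pt64 U).1 (hbs m η hη)
    filter_upwards [hG', hsc, h1] with a h2 h3 h4
    rw [h2, hGa_coeff]
    split_ifs
    · rw [← h3]
      exact h4
    · rw [Height.logHeight₁_zero]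
      have h5 : 0 ≤ hgt (x a) := by
        unfold hgt
        exact div_nonneg (Height.logHeight_nonneg _) (Nat.cast_nonneg _)
      positivity

end Pool.Agent.TRI
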